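import Pool.Agent.Lib.helper9.S2Hard

namespace Pool.Agent.Results.MP_a1eae6_lc.Sigma2

open Pool.Agent.Cx Polynomial

/-- propositional formulas -/
inductive Fm : Type
  | var (n : ℕ)
  | not (φ : Fm)
  | and (φ ψ : Fm)
  | or (φ ψ : Fm)

/-- Polish form: `0`, `1`, `2` stand for not, and, or, and `n + 3` for the variable `n` -/
def Fm.toks : Fm → List ℕ
  | var n => [n + 3]
  | not φ => 0 :: φ.toks
  | and φ ψ => 1 :: (φ.toks ++ ψ.toks)
  | or φ ψ => 2 :: (φ.toks ++ ψ.toks)

instance encFm : Enc Fm := ⟨fun φ => Enc.toBT φ.toks⟩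

def Fm.eval (τ : ℕ → Bool) : Fm → Bool
  | var n => τ n
  | not φ => !φ.eval τ
  | and φ ψ => φ.eval τ && ψ.eval τ
  | or φ ψ => φ.eval τ || ψ.eval τ

def Fm.vars : Fm → Finset ℕ
  | var n => {n}
  | not φ => φ.vars
  | and φ ψ => φ.vars ∪ ψ.vars
  | or φ ψ => φ.vars ∪ ψ.vars

/-- replace every variable `x` by `π x` -/
def Fm.rename (π : ℕ → ℕ) : Fm → Fm
  | var n => var (π n)
  | not φ => not (φ.rename π)
  | and φ ψ => and (φ.rename π) (ψ.rename π)
  | or φ ψ => or (φ.rename π) (ψ.rename π)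

/-- some permutation `π` of the set `X` of variables makes `π(φ)` imply `ψ` -/
def ImpOn (X : Finset ℕ) (φ ψ : Fm) : Prop := ∃ π : Equiv.Perm ℕ, (∀ x ∉ X, π x = x) ∧
  ∀ τ, (φ.rename π).eval τ = true → ψ.eval τ = true

/-- isomorphic implication, with `X` the set of the variables that occur -/
def IsoImp (z : Fm × Fm) : Prop := ImpOn (z.1.vars ∪ z.2.vars) z.1 z.2

lemma eval_rename (τ π) (φ : Fm) : (φ.rename π).eval τ = φ.eval (τ ∘ π) := by
  induction φ <;> simp [Fm.rename, Fm.eval, *]

lemma eval_congr {τ τ'} {φ : Fm} (h : ∀ x ∈ φ.vars, τ x = τ' x) : φ.eval τ = φ.eval τ' := by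
  induction φ <;> simp_all [Fm.vars, Fm.eval, or_imp, forall_and]

lemma impOn_iff {X φ ψ} (h : φ.vars ∪ ψ.vars ⊆ X) : ImpOn X φ ψ ↔
    ∃ f : ℕ → ℕ, Set.InjOn f φ.vars ∧ ∀ τ, φ.eval (τ ∘ f) = true → ψ.eval τ = true := by
  classical
  simp only [ImpOn, eval_rename]
  refine ⟨fun ⟨π, _, a⟩ => ⟨π, π.injective.injOn, a⟩, fun ⟨f, a, b⟩ => ?_⟩
  obtain ⟨h1, h2⟩ := Finset.union_subset_iff.1 h
  have : Finite {x // x ∈ φ.vars ∧ f x ∈ X} := (φ.vars.finite_toSet.subset fun _ => And.left).to_subtype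
  obtain ⟨π, e⟩ := Equiv.Perm.exists_extending_pair (α := {x // x ∈ φ.vars ∧ f x ∈ X}) (β := X)
    (f := fun x => ⟨x, h1 x.2.1⟩) (g := fun x => ⟨f x, x.2.2⟩)
    (fun _ _ e => Subtype.ext (Subtype.mk.inj e))
    fun x y e => Subtype.ext (a x.2.1 y.2.1 (Subtype.mk.inj e))
  refine ⟨.ofSubtype π, fun x => Equiv.Perm.ofSubtype_apply_of_not_mem π, fun τ c => ?_⟩
  let τ' := fun z => if h : z ∉ X ∧ ∃ x ∈ φ.vars, f x = z then τ (Equiv.Perm.ofSubtype π h.2.choose)
    else τ z
  rw [eval_congr (τ' := τ') fun x hx => by simp only [τ', dif_neg fun h : x ∉ X ∧ _ => h.1 (h2 hx)]]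
  refine b _ ((eval_congr fun x hx => ?_).trans c)
  by_cases d : f x ∈ X
  · simp only [Function.comp, τ', dif_neg fun h : f x ∉ X ∧ _ => h.1 d,
      Equiv.Perm.ofSubtype_apply_of_mem π (h1 hx), e ⟨x, hx, d⟩]
  · have h : f x ∉ X ∧ ∃ y ∈ φ.vars, f y = f x := ⟨d, x, hx, rfl⟩
    simp only [Function.comp, τ', dif_pos h, a h.2.choose_spec.1 hx h.2.choose_spec.2]

def step {β : Type} (v : ℕ → β) (n : β → β) (a o : β → β → β) (d : β) (s : List β) (t : ℕ) : List β :=
  if t = 0 then n (s.headD d) :: s.tail else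
  if t = 1 then a (s.headD d) (s.tail.headD d) :: s.tail.tail else
  if t = 2 then o (s.headD d) (s.tail.headD d) :: s.tail.tail else v (t - 3) :: s

lemma run_fm (φ : Fm) : ∀ s, φ.toks.reverse.foldl (step .var .not .and .or (.var 0)) s = φ :: s := by
  induction φ <;> simp_all [Fm.toks, step, -List.foldl_reverse]

lemma run_ev (τ) (φ : Fm) : ∀ s, φ.toks.reverse.foldl (step τ not and or false) s = φ.eval τ :: s := by
  induction φ <;> simp_all [Fm.toks, Fm.eval, step, -List.foldl_reverse]

section pt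
variable {α : Type} [Enc α] {f g : α → Fm}

@[fun_prop] lemma pt_toks (h : PT f) : PT fun a => (f a).toks := h
lemma pt_of (h : PT fun a => (f a).toks) : PT f := h
@[fun_prop] lemma pt_var {n : α → ℕ} (h : PT n) : PT fun a => Fm.var (n a) :=
  pt_of (by simp only [Fm.toks]; fun_prop)
@[fun_prop] lemma pt_not (h : PT f) : PT fun a => (f a).not := pt_of (by simp only [Fm.toks]; fun_prop)
@[fun_prop] lemma pt_and (h : PT f) (h' : PT g) : PT fun a => (f a).and (g a) :=
  pt_of (by simp only [Fm.toks]; fun_prop)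
@[fun_prop] lemma pt_or (h : PT f) (h' : PT g) : PT fun a => (f a).or (g a) :=
  pt_of (by simp only [Fm.toks]; fun_prop)

lemma sz (φ : Fm) : size φ = size φ.toks := rfl

instance decFm : Dec Fm where
  ofBT t := ((Dec.ofBT t : List ℕ).reverse.foldl (step .var .not .and .or (.var 0)) []).headD (.var 0)
  ofBT_toBT φ := by rw [show Enc.toBT φ = Enc.toBT φ.toks from rfl, Dec.ofBT_toBT, run_fm]; rfl
  pt := .headD (.foldl_add (f := fun _ => step Fm.var Fm.not Fm.and Fm.or (Fm.var 0))
    (by unfold step; fun_prop) (by fun_prop) (by fun_prop) (X + 40) fun a c b => by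
      have := fun φ ψ : Fm => size_append φ.toks ψ.toks
      have := fun φ : Fm => size_append φ.toks [3]
      have : size [3] = 9 := rfl
      unfold step
      rcases c with _ | ⟨x, _ | ⟨y, c⟩⟩ <;> split_ifs <;> simp [sz, Fm.toks] <;>
        first | omega | (grind)) (by fun_prop)

lemma pt_eval {t : α → ℕ → Bool} (ht : PT fun z : α × ℕ => t z.1 z.2) (h : PT f) :
    PT fun a => (f a).eval (t a) := by
  have h' : ∀ {γ : Type} [Enc γ] {f : γ → α} {n : γ → ℕ}, PT f → PT n → PT fun x => t (f x) (n x) :=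
    fun a b => ht.comp (a.pair b)
  refine (PT.headD (.foldl_add (f := fun a => step (t a) not and or false) (init := fun _ => [])
    (l := fun a => (f a).toks.reverse) ?_ (by fun_prop) (by fun_prop) 4 fun a c b => ?_)
    (.const false)).of_eq fun a => by rw [run_ev]; rfl
  · unfold step
    exact .ite (by fun_prop) (by fun_prop) (.ite (by fun_prop) (by fun_prop) (.ite (by fun_prop)
      (by fun_prop) (.cons (h' (by fun_prop) (by fun_prop)) (by fun_prop))))
  · have := size_le_of_sublist c.tail_sublist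
    have := size_le_of_sublist c.tail.tail_sublist
    unfold step
    split_ifs <;> simp only [size_cons, eval_ofNat] <;> grind [size_bool]

end pt

lemma var_lt {φ : Fm} {x} (h : x ∈ φ.vars) : x < size φ := by
  have : x + 3 ∈ φ.toks := by induction φ <;> simp_all [Fm.vars, Fm.toks] <;> tauto
  have := size_lt_of_mem this
  rw [sz, size_nat] at *; omega

lemma mem : InSigma2 (Lang IsoImp) := by
  refine inSigma2_Lang (β := List ℕ) (γ := List Bool) (V := fun z => z.2.1.Nodup ∧
    size z.1 ≤ z.2.1.length ∧ (¬ ∃ x ∈ z.2.1, size z.1 ≤ x) ∧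
    (¬ z.1.1.eval (fun x => z.2.2.getD (z.2.1.getD x 0) false) = true ∨
      z.1.2.eval (fun x => z.2.2.getD x false) = true))
    (.and (by fun_prop) (.and (by fun_prop) (.and (by fun_prop) (.or
      (.not (.eq (pt_eval (by fun_prop) (by fun_prop)) (by fun_prop)))
      (.eq (pt_eval (by fun_prop) (by fun_prop)) (by fun_prop))))))
    (X * (2 * X + 2) + 1) (4 * X + 1) (fun ⟨φ, ψ⟩ ⟨π, a, b⟩ => ?_) fun ⟨φ, ψ⟩ w h => ?_
  all_goals
    have v1 : ∀ x ∈ φ.vars, x < size (φ, ψ) := fun x hx => by have := var_lt hx; simp; omega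
    have v2 : ∀ x ∈ ψ.vars, x < size (φ, ψ) := fun x hx => by have := var_lt hx; simp; omega
  · have : ∀ x < size (φ, ψ), π x < size (φ, ψ) := fun x hx => by
      by_contra h
      exact h ((π.injective (a (π x) (by grind))).symm ▸ hx)
    refine ⟨(List.range (size (φ, ψ))).map π, ?_, fun c => ⟨List.nodup_range.map π.injective,
      by simp, by simpa using this, or_iff_not_imp_left.2 fun h => b _ ?_⟩⟩
    · simpa [add_assoc] using size_list_le ((List.range (size (φ, ψ))).map π) (2 * size (φ, ψ) + 1) (by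
        simp only [List.forall_mem_map, List.mem_range, size_nat]; grind)
    · rw [eval_rename, ← not_not.1 h]
      exact eval_congr fun x hx => by simp [v1 x hx, -size_pair]
  · obtain ⟨a, b, c, -⟩ := h [] (by simp)
    refine (impOn_iff subset_rfl).2 ⟨(w.getD · 0), fun x hx y hy e => ?_, fun τ d => ?_⟩
    · have h1 := (v1 x hx).trans_le b
      have h2 := (v1 y hy).trans_le b
      simpa [h1, h2, a.getElem_inj_iff] using e
    · have := (h ((List.range (size (φ, ψ))).map τ) (by
        simpa [mul_comm] using size_list_le ((List.range (size (φ, ψ))).map τ) 3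
          fun b _ => size_bool b)).2.2.2
      rw [eval_congr (τ' := τ ∘ (w.getD · 0)) (φ := φ) fun x hx => by
        have h1 := (v1 x hx).trans_le b
        have : w[x] < size (φ, ψ) := not_le.1 fun e => c ⟨_, List.getElem_mem h1, e⟩
        simp [h1, this, -size_pair], eval_congr (τ' := τ) (φ := ψ) fun x hx => by
          simp [v2 x hx, -size_pair]] at this
      exact this.resolve_left (not_not.2 d)

def tt : Fm := .or (.var 0) (.not (.var 0))
def conj (l : List Fm) : Fm := l.foldr .and tt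
def disj (l : List Fm) : Fm := l.foldr .or tt.not

@[simp] lemma ev_conj {τ l} : (conj l).eval τ = true ↔ ∀ φ ∈ l, φ.eval τ = true := by
  induction l <;> simp_all [conj, tt, Fm.eval]

@[simp] lemma ev_disj {τ l} : (disj l).eval τ = true ↔ ∃ φ ∈ l, φ.eval τ = true := by
  induction l <;> simp_all [disj, tt, Fm.eval]

@[fun_prop] lemma pt_conj {α : Type} [Enc α] {l : α → List Fm} (h : PT l) : PT fun a => conj (l a) :=
  pt_of (PT.of_eq (g := fun a => ((l a).flatMap fun φ => 1 :: φ.toks) ++ tt.toks) (by fun_prop)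
    fun a => by induction l a <;> simp_all [conj, Fm.toks])

@[fun_prop] lemma pt_disj {α : Type} [Enc α] {l : α → List Fm} (h : PT l) : PT fun a => disj (l a) :=
  pt_of (PT.of_eq (g := fun a => ((l a).flatMap fun φ => 2 :: φ.toks) ++ tt.not.toks) (by fun_prop)
    fun a => by induction l a <;> simp_all [disj, Fm.toks])

def lft (m : ℕ) : Fm := conj ((List.range m).map fun j => .and (.var (2 * j)) (.not (.var (2 * j + 1))))

def rgt (z : ℕ × CNF) : Fm := .and (conj ((List.range z.1).map fun j =>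
  .or (.and (.var (2 * j)) (.not (.var (2 * j + 1)))) (.and (.var (2 * j + 1)) (.not (.var (2 * j))))))
  (.not (conj (z.2.map fun c => disj (c.map fun l =>
    bif l.2 then .var (2 * l.1) else .not (.var (2 * l.1))))))

lemma hard : HardS2 IsoImp := by
  classical
  refine hardS2.red (r := fun z => (lft z.1, rgt z)) (by unfold lft rgt; fun_prop) fun ⟨m, φ⟩ => ?_
  have l : ∀ τ, (lft m).eval τ = true ↔ ∀ j < m, τ (2 * j) = true ∧ τ (2 * j + 1) = false :=
    fun τ => by simp [lft, Fm.eval]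
  have r : ∀ τ, (rgt (m, φ)).eval τ = true ↔ (∀ j < m, τ (2 * j) ≠ τ (2 * j + 1)) ∧
      ¬ Cx.Mod (fun n => τ (2 * n)) φ := fun τ => by
    have : ∀ l : ℕ × Bool, Fm.eval τ (bif l.2 then .var (2 * l.1) else .not (.var (2 * l.1))) = true ↔
        τ (2 * l.1) = l.2 := fun ⟨a, b⟩ => by cases b <;> simp [Fm.eval]
    rw [rgt, Fm.eval, Fm.eval, Bool.and_eq_true, Bool.not_eq_true', ← Bool.not_eq_true]
    simp only [ev_conj, List.forall_mem_map, List.mem_range, Fm.eval]
    simp only [ev_disj, List.mem_map, exists_exists_and_eq_and, this, Cx.Mod]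
    grind
  have v : ∀ i < 2 * m, i ∈ (lft m).vars := fun i hi => by
    have : ∀ (l : List Fm), ∀ ψ ∈ l, ψ.vars ⊆ (conj l).vars := fun l => by
      induction l <;> simp_all [conj, Fm.vars, Finset.subset_iff]
      tauto
    refine this _ _ (List.mem_map_of_mem (List.mem_range.2 (show i / 2 < m by omega))) ?_
    simp [Fm.vars]; omega
  simp only [IsoImp, impOn_iff subset_rfl, l, r, Function.comp, S2]
  constructor
  · rintro ⟨σ, h⟩
    refine ⟨fun n => if σ (n / 2) then n else if n % 2 = 0 then n + 1 else n - 1,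
      fun x _ y _ e => by grind, fun τ a => ?_⟩
    have : ∀ j < m, τ (2 * j) = σ j ∧ τ (2 * j + 1) = !σ j := fun j hj => by
      have := a j hj
      cases e : σ j <;> simp_all [Nat.mul_add_div]
    exact ⟨fun j hj => by simp [this j hj], h _ fun j hj => (this j hj).1⟩
  · rintro ⟨f, a, h⟩
    let τ0 := fun z => decide (∃ j < m, f (2 * j) = z)
    have b : ∀ τ : ℕ → Bool, (∀ i < 2 * m, τ (f i) = τ0 (f i)) →
        ∀ j < m, τ (f (2 * j)) = true ∧ τ (f (2 * j + 1)) = false := fun τ e j hj => by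
      rw [e _ (by omega), e _ (by omega)]
      refine ⟨decide_eq_true ⟨j, hj, rfl⟩, decide_eq_false fun ⟨i, hi, e⟩ => ?_⟩
      have := a (v _ (by omega)) (v _ (by omega)) e
      omega
    have c : Finset.range (2 * m) ⊆ (Finset.range (2 * m)).image f := fun n hn => by
      by_contra e
      simp only [Finset.mem_image, Finset.mem_range, not_exists, not_and] at e hn
      have h1 := (h τ0 (b _ fun _ _ => rfl)).1 (n / 2) (by omega)
      have h2 := (h (Function.update τ0 n !τ0 n) (b _ fun i hi =>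
        Function.update_of_ne (e i hi) _ _)).1 (n / 2) (by omega)
      rcases show n = 2 * (n / 2) ∨ n = 2 * (n / 2) + 1 by omega with e | e <;>
        generalize n / 2 = k at * <;> subst e <;> simp [Bool.eq_not.2 h1] at h2
    have d := Finset.eq_of_subset_of_card_le c Finset.card_image_le
    refine ⟨fun j => τ0 (2 * j), fun τ e => ?_⟩
    convert (h (fun n => if n < 2 * m then τ0 n else τ (n / 2)) (b (fun n => if n < 2 * m then τ0 n else τ (n / 2)) fun i hi => if_pos
      (Finset.mem_range.1 (d.ge (Finset.mem_image_of_mem f (Finset.mem_range.2 hi)))))).2 using 3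
    clear_value τ0
    grind

theorem result : Sigma2Complete (Lang IsoImp) ∧
    ∀ φ ψ X, φ.vars ∪ ψ.vars ⊆ X → (ImpOn X φ ψ ↔ IsoImp (φ, ψ)) :=
  ⟨⟨mem, hard.hard⟩, fun _ _ _ h => (impOn_iff h).trans (impOn_iff subset_rfl).symm⟩

end Pool.Agent.Results.MP_a1eae6_lc.Sigma2
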